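import Pool.Graph.R_seed8.W646.CI.Stm
import Pool.Graph.R_seed8.W191.CI.Lowf

/-!
# Points of regular growth with slope bounded in terms of the growth exponent
-/

set_option autoImplicit false

namespace Pool.Agent.H85.GE

open MeasureTheory Filter Topology Set
open Pool.Agent.W646.CI
open Pool.Agent.W191.CI (HH_nonneg HH_le)

/-- The tangent line inequality for `x ^ p`. -/
theorem rpow_tangent {p x y : ℝ} (hp : 1 ≤ p) (hx : 0 ≤ x) (hy : 0 < y) :
    y ^ p + p * y ^ (p - 1) * (x - y) ≤ x ^ p := by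
  obtain ⟨s, hs⟩ : ∃ s, s = x / y - 1 := ⟨_, rfl⟩
  have hx' : x = y * (1 + s) := by
    rw [hs]
    field_simp
    ring
  have hs1 : -1 ≤ s := by
    rw [hs]
    have := div_nonneg hx hy.le
    linarith
  have h1 := one_add_mul_self_le_rpow_one_add hs1 hp
  rw [hx', Real.mul_rpow hy.le (by linarith)]
  have h2 : y ^ (p - 1) * y = y ^ p := by
    rw [← Real.rpow_add_one hy.ne']
    congr 1
    ring
  have h3 : p * y ^ (p - 1) * (y * (1 + s) - y) = p * s * (y ^ (p - 1) * y) := by ring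
  rw [h3, h2]
  have h4 := mul_le_mul_of_nonneg_left h1 (Real.rpow_nonneg hy.le p)
  nlinarith

theorem pow_near {q u : ℝ} (hq : 0 ≤ q) (hu : |u| ≤ 1 / 2) (hqu : 2 * q * |u| ≤ 1) :
    |(1 + u) ^ q - 1| ≤ 4 * q * |u| := by
  have hu' := abs_le.mp hu
  have h0 : 0 < 1 + u := by linarith [hu'.1]
  have hl : |Real.log (1 + u)| ≤ 2 * |u| := by
    rw [abs_le]
    constructor
    · have h1 := Real.one_sub_inv_le_log_of_pos h0
      have h2 : -(2 * |u|) ≤ 1 - (1 + u)⁻¹ := by
        have h3 : 1 - (1 + u)⁻¹ = u / (1 + u) := by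
          field_simp
          ring
        rw [h3, le_div_iff₀ h0]
        have h4 := neg_abs_le u
        have h5 := abs_nonneg u
        nlinarith [hu'.1]
      linarith
    · have h1 := Real.log_le_sub_one_of_pos h0
      have h4 := le_abs_self u
      have h5 := abs_nonneg u
      linarith
  rw [Real.rpow_def_of_pos h0]
  have h1 : |Real.log (1 + u) * q| ≤ 2 * q * |u| := by
    rw [abs_mul, abs_of_nonneg hq]
    nlinarith
  have h2 := Real.abs_exp_sub_one_le (h1.trans hqu)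
  linarith

theorem HH_sq {D lam : ℝ} (hD : 1 ≤ D) (hl : 1 < lam) :
    lam * HH D lam ^ 2 ≤ 4 * (Real.log D + 5) ^ 2 := by
  have h0 : 0 < lam := by linarith
  have hD0 : 0 < D := by linarith
  have hs0 : 0 < Real.sqrt lam := Real.sqrt_pos.2 h0
  have hs1 : 1 ≤ Real.sqrt lam := by
    rw [Real.one_le_sqrt]
    exact hl.le
  have hss : Real.sqrt lam * Real.sqrt lam = lam := Real.mul_self_sqrt h0.le
  have h1 : Real.log (D * lam ^ 2) = Real.log D + 2 * Real.log lam := by
    rw [Real.log_mul hD0.ne' (by positivity), Real.log_pow]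
    push_cast
    ring
  have h2 : Real.log lam ≤ 2 * Real.sqrt lam := by
    have h3 : Real.log lam = 2 * Real.log (Real.sqrt lam) := by
      rw [Real.log_sqrt h0.le]
      ring
    rw [h3]
    have h4 := Real.log_le_sub_one_of_pos hs0
    linarith
  have h3 : 0 ≤ Real.log D := Real.log_nonneg hD
  have h4 : Real.log (D * lam ^ 2) + 1 ≤ (Real.log D + 5) * Real.sqrt lam := by
    rw [h1]
    nlinarith
  have h5 : 0 ≤ Real.log (D * lam ^ 2) + 1 := by
    have : 0 ≤ Real.log (D * lam ^ 2) := Real.log_nonneg (by nlinarith)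
    linarith
  have h6 : (Real.log (D * lam ^ 2) + 1) ^ 2 ≤ (Real.log D + 5) ^ 2 * lam := by
    have h7 := pow_le_pow_left₀ h5 h4 2
    have h8 : ((Real.log D + 5) * Real.sqrt lam) ^ 2 = (Real.log D + 5) ^ 2 * lam := by
      rw [mul_pow, sq (Real.sqrt lam), hss]
    rwa [h8] at h7
  have h9 : lam * HH D lam ^ 2 = 4 / lam * (Real.log (D * lam ^ 2) + 1) ^ 2 := by
    unfold HH
    field_simp
    ring
  rw [h9]
  calc 4 / lam * (Real.log (D * lam ^ 2) + 1) ^ 2
      ≤ 4 / lam * ((Real.log D + 5) ^ 2 * lam) := by gcongr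
    _ = 4 * (Real.log D + 5) ^ 2 := by field_simp

/-- Points of regular growth for a function with `L τ ≤ τ ^ p` infinitely often. -/
theorem grow (L : ℝ → ℝ) (τ0 : ℝ) (hmono : MonotoneOn L (Ici τ0))
    (hM : ∀ M : ℝ, ∃ᶠ τ in atTop, M * τ ≤ L τ) (p p' : ℝ) (hp : 1 ≤ p) (hpp : p < p')
    (hup : ∃ᶠ τ in atTop, L τ ≤ τ ^ p) (lam0 D κ τ1 : ℝ) (hlam0 : 1 < lam0) (hD : 1 ≤ D)
    (hκ : 0 < κ) :
    ∃ τ ≥ τ1, τ1 ≤ L τ ∧ ∃ lam ≥ lam0, lam ≤ (lam0 + p') * L τ ^ (1 - 1 / p') ∧
      ∀ s : ℝ, |s| ≤ HH D lam → L (τ + s) ≤ L τ + lam * s + κ := by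
  obtain ⟨q, hq⟩ : ∃ q : ℝ, q = p' - 1 := ⟨_, rfl⟩
  have hq0 : 0 < q := by linarith
  have hp'0 : 0 < p' := by linarith
  obtain ⟨H0, hH0⟩ : ∃ H0 : ℝ, H0 = 2 * Real.log D + 6 := ⟨_, rfl⟩
  have hlD : 0 ≤ Real.log D := Real.log_nonneg hD
  have hH00 : 0 < H0 := by linarith
  obtain ⟨CH, hCH⟩ : ∃ CH : ℝ, CH = 4 * (Real.log D + 5) ^ 2 := ⟨_, rfl⟩
  have hCH0 : 0 < CH := by
    rw [hCH]
    positivity
  obtain ⟨A, hA⟩ : ∃ A : ℝ, A = max (max τ0 (max τ1 1)) (max (2 * H0 * (2 * q + 1))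
    (8 * q * CH / κ)) := ⟨_, rfl⟩
  have hA1 : τ0 ≤ A := by
    rw [hA]
    exact (le_max_left _ _).trans (le_max_left _ _)
  have hA2 : τ1 ≤ A := by
    rw [hA]
    exact ((le_max_left _ _).trans (le_max_right _ _)).trans (le_max_left _ _)
  have hA3 : 1 ≤ A := by
    rw [hA]
    exact ((le_max_right _ _).trans (le_max_right _ _)).trans (le_max_left _ _)
  have hA4 : 2 * H0 * (2 * q + 1) ≤ A := by
    rw [hA]
    exact (le_max_left _ _).trans (le_max_right _ _)
  have hA5 : 8 * q * CH / κ ≤ A := by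
    rw [hA]
    exact (le_max_right _ _).trans (le_max_right _ _)
  have hA6 : 8 * q * CH ≤ A * κ := by
    rwa [div_le_iff₀ hκ] at hA5
  -- the point `x0`
  obtain ⟨x0, hx0M, hx0⟩ := ((hM (lam0 + 1)).and_eventually
    (eventually_ge_atTop (max (A + H0) (|L (A + H0)| + 1 + κ)))).exists
  have hx01 : A + H0 ≤ x0 := (le_max_left _ _).trans hx0
  have hx02 : |L (A + H0)| + 1 + κ ≤ x0 := (le_max_right _ _).trans hx0
  have hx00 : 0 < x0 := by linarith
  obtain ⟨c, hc⟩ : ∃ c : ℝ, c = min 1 (1 / x0 ^ p') := ⟨_, rfl⟩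
  have hxp : 0 < x0 ^ p' := Real.rpow_pos_of_pos hx00 _
  have hc0 : 0 < c := by
    rw [hc]
    exact lt_min one_pos (by positivity)
  have hc1 : c ≤ 1 := by
    rw [hc]
    exact min_le_left _ _
  have hc2 : c * x0 ^ p' ≤ 1 := by
    have : c ≤ 1 / x0 ^ p' := by
      rw [hc]
      exact min_le_right _ _
    rwa [le_div_iff₀ hxp] at this
  -- the point `b`
  have hev : ∀ᶠ b : ℝ in atTop, b ^ p < c * (b - H0) ^ p' := by
    have h1 : Tendsto (fun b : ℝ => b ^ (p' - p)) atTop atTop := tendsto_rpow_atTop (by linarith)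
    filter_upwards [h1.eventually_gt_atTop (2 ^ p' / c), eventually_ge_atTop (2 * H0),
      eventually_gt_atTop (0 : ℝ)] with b hb1 hb2 hb3
    rw [div_lt_iff₀ hc0] at hb1
    have h2 : (b / 2) ^ p' ≤ (b - H0) ^ p' :=
      Real.rpow_le_rpow (by linarith) (by linarith) hp'0.le
    have h3 : (b / 2) ^ p' = b ^ p' / 2 ^ p' := Real.div_rpow hb3.le (by norm_num) _
    have h4 : b ^ p' = b ^ (p' - p) * b ^ p := by
      rw [← Real.rpow_add hb3]
      congr 1
      ring
    have h5 : 0 < b ^ p := Real.rpow_pos_of_pos hb3 _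
    have h6 : (0 : ℝ) < 2 ^ p' := Real.rpow_pos_of_pos (by norm_num) _
    have h7 : b ^ p < c * (b / 2) ^ p' := by
      rw [h3, h4, ← mul_div_assoc, lt_div_iff₀ h6]
      nlinarith
    nlinarith
  obtain ⟨b, hb1, hb2, hb3⟩ := (hup.and_eventually (hev.and (eventually_ge_atTop
    (x0 + H0)))).exists
  -- the comparison function
  obtain ⟨φ, hφ⟩ : ∃ φ : ℝ → ℝ, φ = fun x => lam0 * x + c * x ^ p' := ⟨_, rfl⟩
  obtain ⟨g, hg⟩ : ∃ g : ℝ → ℝ, g = fun x => L x - φ x := ⟨_, rfl⟩
  have hφ0 : ∀ x, 0 ≤ x → 0 ≤ φ x := by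
    intro x hx
    rw [hφ]
    have := Real.rpow_nonneg hx p'
    positivity
  have hAb : A ≤ b := by linarith
  have hbdd : ∀ x ∈ Icc A b, g x ≤ L b := by
    intro x hx
    have h1 := hmono (hA1.trans hx.1) (hA1.trans hAb) hx.2
    have h2 := hφ0 x (by linarith [hx.1])
    rw [hg]
    simp only
    linarith
  have hBA : BddAbove (g '' Icc A b) := by
    refine ⟨L b, ?_⟩
    rintro _ ⟨x, hx, rfl⟩
    exact hbdd x hx
  have hne : (g '' Icc A b).Nonempty := ⟨g A, A, ⟨le_rfl, hAb⟩, rfl⟩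
  obtain ⟨_, ⟨τ, hτ, rfl⟩, hgτ⟩ := exists_lt_of_lt_csSup hne
    (show sSup (g '' Icc A b) - κ / 2 < sSup (g '' Icc A b) by linarith)
  have hsup : ∀ x ∈ Icc A b, g x < g τ + κ / 2 := by
    intro x hx
    have := le_csSup hBA ⟨x, hx, rfl⟩
    linarith
  have hgx0 : x0 - 1 ≤ g x0 := by
    rw [hg, hφ]
    simp only
    nlinarith
  have hgτ0 : x0 - 1 - κ / 2 < g τ := by
    have := hsup x0 ⟨by linarith, by linarith⟩
    linarith
  have hτ0 : 0 < τ := by linarith [hτ.1]
  have hgle : g τ ≤ L τ := by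
    have := hφ0 τ hτ0.le
    rw [hg]
    simp only
    linarith
  have hτl : A + H0 < τ := by
    by_contra hcon
    push Not at hcon
    have h1 := hmono (hA1.trans hτ.1) (show τ0 ≤ A + H0 by linarith) hcon
    have h2 := le_abs_self (L (A + H0))
    linarith
  have hτr : τ < b - H0 := by
    by_contra hcon
    push Not at hcon
    have h1 := hmono (hA1.trans hτ.1) (hA1.trans hAb) hτ.2
    have h2 : (b - H0) ^ p' ≤ τ ^ p' := Real.rpow_le_rpow (by linarith) hcon hp'0.le
    have h3 : g τ ≤ L b - c * (b - H0) ^ p' := by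
      rw [hg, hφ]
      simp only
      have h4 := mul_le_mul_of_nonneg_left h2 hc0.le
      have h5 : 0 ≤ lam0 * τ := by positivity
      linarith
    have h6 := abs_nonneg (L (A + H0))
    linarith
  have hLφ : φ τ ≤ L τ := by
    have h6 := abs_nonneg (L (A + H0))
    have : 0 < g τ := by linarith
    rw [hg] at this
    simp only at this
    linarith
  have hX0 : 0 < c * τ ^ p' := by
    have := Real.rpow_pos_of_pos hτ0 p'
    positivity
  have hXL : c * τ ^ p' ≤ L τ := by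
    rw [hφ] at hLφ
    simp only at hLφ
    have : 0 < lam0 * τ := by positivity
    linarith
  have hLτ : τ ≤ L τ := by
    rw [hφ] at hLφ
    simp only at hLφ
    nlinarith
  have hL1 : 1 ≤ L τ := by linarith
  -- the slope
  obtain ⟨lam, hlam⟩ : ∃ lam : ℝ, lam = lam0 + c * p' * τ ^ q := ⟨_, rfl⟩
  have hτq : 0 < τ ^ q := Real.rpow_pos_of_pos hτ0 _
  have hlam0' : lam0 ≤ lam := by
    rw [hlam]
    have : 0 < c * p' * τ ^ q := by positivity
    linarith
  have hlam1 : 1 < lam := by linarith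
  refine ⟨τ, by linarith, by linarith, lam, hlam0', ?_, ?_⟩
  · have h1 : c * τ ^ q ≤ L τ ^ (1 - 1 / p') := by
      have h2 : c * τ ^ q = c * τ ^ p' / τ := by
        rw [eq_div_iff hτ0.ne', mul_assoc, ← Real.rpow_add_one hτ0.ne']
        congr 2
        linarith
      have h3 : (c * τ ^ p') ^ (1 / p') ≤ τ := by
        have h4 : c * τ ^ p' ≤ τ ^ p' := by
          have := Real.rpow_pos_of_pos hτ0 p'
          nlinarith
        calc (c * τ ^ p') ^ (1 / p') ≤ (τ ^ p') ^ (1 / p') :=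
              Real.rpow_le_rpow hX0.le h4 (by positivity)
          _ = τ := by
              rw [← Real.rpow_mul hτ0.le, mul_one_div_cancel hp'0.ne', Real.rpow_one]
      have h5 : c * τ ^ p' / τ ≤ (c * τ ^ p') ^ (1 - 1 / p') := by
        rw [Real.rpow_sub hX0, Real.rpow_one]
        exact div_le_div_of_nonneg_left hX0.le (Real.rpow_pos_of_pos hX0 _) h3
      have h6 : (c * τ ^ p') ^ (1 - 1 / p') ≤ L τ ^ (1 - 1 / p') := by
        refine Real.rpow_le_rpow hX0.le hXL ?_
        have : 1 / p' ≤ 1 := by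
          rw [div_le_one hp'0]
          linarith
        linarith
      rw [h2]
      exact h5.trans h6
    have h2 : 1 ≤ L τ ^ (1 - 1 / p') := by
      refine Real.one_le_rpow hL1 ?_
      have : 1 / p' ≤ 1 := by
        rw [div_le_one hp'0]
        linarith
      linarith
    rw [hlam]
    nlinarith
  · intro s hs
    have hsH : |s| ≤ H0 := by
      rw [hH0]
      exact hs.trans (HH_le hD hlam1)
    have hs' := abs_le.mp hsH
    have hx : τ + s ∈ Icc A b := ⟨by linarith [hs'.1], by linarith [hs'.2]⟩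
    have h1 := hsup _ hx
    rw [hg, hφ] at h1
    simp only at h1
    have hx0' : 0 < τ + s := by linarith [hx.1]
    have h2 := rpow_tangent (p := p') (x := τ) (y := τ + s) (by linarith) hτ0.le hx0'
    have h3 : (τ + s) ^ p' - τ ^ p' ≤ p' * (τ + s) ^ q * s := by
      rw [hq]
      nlinarith
    -- compare the slopes
    obtain ⟨u, hu⟩ : ∃ u : ℝ, u = s / τ := ⟨_, rfl⟩
    have hus : s = τ * u := by
      rw [hu]
      field_simp
    have hu1 : |u| = |s| / τ := by
      rw [hu, abs_div, abs_of_pos hτ0]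
    have hu2 : |u| * (2 * (2 * q + 1)) ≤ 1 := by
      rw [hu1, div_mul_eq_mul_div, div_le_one hτ0]
      have : |s| * (2 * (2 * q + 1)) ≤ H0 * (2 * (2 * q + 1)) :=
        mul_le_mul_of_nonneg_right hsH (by positivity)
      nlinarith
    have hu0 := abs_nonneg u
    have h4 := pow_near (q := q) (u := u) hq0.le (by nlinarith) (by nlinarith)
    have h5 : (τ + s) ^ q = τ ^ q * (1 + u) ^ q := by
      have h6 : τ + s = τ * (1 + u) := by
        rw [hus]
        ring
      have h7 : 0 ≤ 1 + u := by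
        have := neg_abs_le u
        nlinarith
      rw [h6, Real.mul_rpow hτ0.le h7]
    have h8 : (τ + s) ^ q * s ≤ τ ^ q * s + τ ^ q * (4 * q * (s ^ 2 / τ)) := by
      have h9 : (τ + s) ^ q * s - τ ^ q * s = τ ^ q * (((1 + u) ^ q - 1) * s) := by
        rw [h5]
        ring
      have h10 : ((1 + u) ^ q - 1) * s ≤ 4 * q * (s ^ 2 / τ) := by
        calc ((1 + u) ^ q - 1) * s ≤ |((1 + u) ^ q - 1) * s| := le_abs_self _
          _ = |(1 + u) ^ q - 1| * |s| := abs_mul _ _
          _ ≤ 4 * q * |u| * |s| := mul_le_mul_of_nonneg_right h4 (abs_nonneg _)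
          _ = 4 * q * (s ^ 2 / τ) := by
              rw [hu1, ← sq_abs s]
              ring
      have h11 := mul_le_mul_of_nonneg_left h10 hτq.le
      linarith
    have h12 : lam * s ^ 2 ≤ CH := by
      have h13 : s ^ 2 ≤ HH D lam ^ 2 := by
        rw [← sq_abs s]
        exact pow_le_pow_left₀ (abs_nonneg _) hs 2
      have h14 := mul_le_mul_of_nonneg_left h13 (by linarith : 0 ≤ lam)
      rw [hCH]
      exact h14.trans (HH_sq hD hlam1)
    have h15 : c * p' * (τ ^ q * (4 * q * (s ^ 2 / τ))) ≤ κ / 2 := by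
      have h16 : c * p' * (τ ^ q * (4 * q * (s ^ 2 / τ))) =
          4 * q * ((c * p' * τ ^ q) * s ^ 2) / τ := by
        field_simp
      rw [h16, div_le_iff₀ hτ0]
      have h17 : (c * p' * τ ^ q) * s ^ 2 ≤ lam * s ^ 2 :=
        mul_le_mul_of_nonneg_right (by linarith) (sq_nonneg _)
      have h18 : 4 * q * ((c * p' * τ ^ q) * s ^ 2) ≤ 4 * q * CH :=
        mul_le_mul_of_nonneg_left (h17.trans h12) (by positivity)
      have h19 : A * κ ≤ τ * κ := mul_le_mul_of_nonneg_right (by linarith) hκ.le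
      linarith
    have h20 : c * ((τ + s) ^ p' - τ ^ p') ≤ c * (p' * (τ + s) ^ q * s) :=
      mul_le_mul_of_nonneg_left h3 hc0.le
    have h21 : c * (p' * (τ + s) ^ q * s) = c * p' * ((τ + s) ^ q * s) := by ring
    have h22 : c * p' * ((τ + s) ^ q * s) ≤
        c * p' * (τ ^ q * s + τ ^ q * (4 * q * (s ^ 2 / τ))) :=
      mul_le_mul_of_nonneg_left h8 (by positivity)
    have h23 : c * p' * (τ ^ q * s + τ ^ q * (4 * q * (s ^ 2 / τ))) =
        c * p' * τ ^ q * s + c * p' * (τ ^ q * (4 * q * (s ^ 2 / τ))) := by ring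
    have h24 : lam * s = lam0 * s + c * p' * τ ^ q * s := by
      rw [hlam]
      ring
    linarith

end Pool.Agent.H85.GE
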