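import Pool.Agent.H85.GE.Grow
import Pool.Graph.R_seed8.W646.CI.Final

/-!
# The lower estimate in terms of the growth exponent
-/

set_option autoImplicit false

namespace Pool.Agent.H85.GE

open MeasureTheory Filter Topology Set
open Pool.Agent.W646.CI
open Pool.Agent.W191.CI (HH_nonneg HH_le freq ne_zero)
open MinMod (maxMod aF)
open MinMod.L4a (le_maxMod maxMod_mono)

/-- The growth exponent: the lower limit of `log log a_f(r) / log log r`. -/
noncomputable def gexp (f : ℂ → ℂ) : EReal :=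
  liminf (fun r : ℝ => ((Real.log (Real.log (aF f r)) / Real.log (Real.log r) : ℝ) : EReal)) atTop

theorem freq_up {f : ℂ → ℂ} {k p : ℝ} (h : gexp f ≤ (k : EReal)) (hk : k < p)
    (ha : Tendsto (fun r => aF f r) atTop atTop) :
    ∃ᶠ τ : ℝ in atTop, Real.log (aF f (Real.exp τ)) ≤ τ ^ p := by
  have h1 : gexp f < ((p : ℝ) : EReal) := lt_of_le_of_lt h (by exact_mod_cast hk)
  have h2 := Filter.frequently_lt_of_liminf_lt (by isBoundedDefault) h1
  have h3 : ∃ᶠ r : ℝ in atTop, Real.log (aF f r) ≤ Real.log r ^ p := by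
    refine (h2.and_eventually ((eventually_gt_atTop (Real.exp 1)).and
      (ha.eventually_gt_atTop 1))).mono ?_
    rintro r ⟨hr, hr1, hr2⟩
    have hr0 : 0 < r := (Real.exp_pos 1).trans hr1
    have h4 : 1 < Real.log r := (Real.lt_log_iff_exp_lt hr0).2 hr1
    have h5 : 0 < Real.log (Real.log r) := Real.log_pos h4
    have h6 : Real.log (Real.log (aF f r)) / Real.log (Real.log r) < p := by exact_mod_cast hr
    rw [div_lt_iff₀ h5] at h6
    have h7 : 0 < Real.log (aF f r) := Real.log_pos hr2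
    have h8 : p * Real.log (Real.log r) = Real.log (Real.log r ^ p) :=
      (Real.log_rpow (by linarith) _).symm
    rw [h8] at h6
    exact ((Real.log_lt_log_iff h7 (Real.rpow_pos_of_pos (by linarith) _)).1 h6).le
  refine Real.tendsto_log_atTop.frequently (p := fun τ => Real.log (aF f (Real.exp τ)) ≤ τ ^ p)
    ((h3.and_eventually (eventually_gt_atTop (0:ℝ))).mono ?_)
  rintro r ⟨hr, hr0⟩
  rw [Real.exp_log hr0]
  exact hr

theorem lowk (hP : S_PEAK) (f : ℂ → ℂ) (hf : Differentiable ℂ f) (hord : order f = ⊤) (k : ℝ)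
    (hk : 1 ≤ k) (hg : gexp f ≤ (k : EReal)) (ε : ℝ) (hε : 0 < ε) :
    (Tendsto (fun r => MinMod.aF f r) atTop atTop) ∧
    ¬ ∀ᶠ r : ℝ in atTop, ∃ z : ℂ, ‖z‖ = r ∧
      ‖f z‖ ≤ Real.exp (-((2 * (1 - 1 / k) + ε) *
        (MinMod.aF f r * Real.log (Real.log (MinMod.aF f r))))) := by
  have hne := ne_zero hord
  obtain ⟨z0, hz0⟩ := id hne
  have hMpos : ∀ r, ‖z0‖ ≤ r → 0 < maxMod f r := by
    intro r hr
    have h1 : 0 < ‖f z0‖ := norm_pos_iff.mpr hz0
    have h2 := le_maxMod f hf z0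
    have h3 := maxMod_mono f hf ‖z0‖ r (norm_nonneg _) hr
    linarith
  have hamono : ∀ r s, ‖z0‖ ≤ r → r ≤ s → aF f r ≤ aF f s := by
    intro r s hr hrs
    exact Real.log_le_log (hMpos r hr) (maxMod_mono f hf r s ((norm_nonneg _).trans hr) hrs)
  have hatend : Tendsto (fun r => MinMod.aF f r) atTop atTop :=
    (Pool.Agent.W191.CI.lowf hP Pool.Agent.W214.CI.grow f hf hord 1 one_pos).1
  have hatop : ∀ B : ℝ, ∀ᶠ r : ℝ in atTop, B ≤ aF f r := fun B => hatend.eventually_ge_atTop B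
  refine ⟨hatend, fun hsmall => ?_⟩
  -- parameters
  have hk0 : 0 < k := by linarith
  set θ : ℝ := 1 - 1 / k with hθ
  have hθ0 : 0 ≤ θ := by
    have : 1 / k ≤ 1 := by
      rw [div_le_one hk0]
      exact hk
    linarith
  have hθ1 : θ < 1 := by
    have : 0 < 1 / k := by positivity
    linarith
  set e1 : ℝ := min 1 (ε / 8) with he1
  have he1pos : 0 < e1 := lt_min one_pos (by linarith)
  have he11 : e1 ≤ 1 := min_le_left _ _
  have he12 : e1 ≤ ε / 8 := min_le_right _ _
  set p' : ℝ := k + e1 with hp'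
  have hp'1 : 1 < p' := by linarith
  have hθ' : 1 - 1 / p' ≤ θ + e1 := by
    have h1 : 1 / k - 1 / p' = e1 / (k * p') := by
      rw [hp']
      field_simp
      ring
    have h2 : e1 / (k * p') ≤ e1 := by
      refine div_le_self he1pos.le ?_
      nlinarith
    rw [hθ]
    linarith
  have hθ'0 : 0 ≤ 1 - 1 / p' := by
    have : 1 / p' ≤ 1 := by
      rw [div_le_one (by linarith)]
      linarith
    linarith
  have hkey : (2 + e1) * (1 - 1 / p') ≤ 2 * θ + ε / 2 := by
    have h1 : (2 + e1) * (1 - 1 / p') ≤ (2 + e1) * (θ + e1) :=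
      mul_le_mul_of_nonneg_left hθ' (by linarith)
    nlinarith
  obtain ⟨lam0, hlam0, D, hD, hpk⟩ := hP e1 he1pos he11
  obtain ⟨c, hc, hpeak⟩ := hpk f hf hne
  obtain ⟨r1, hr1⟩ := ((hatop 1).and (hsmall.and
    (eventually_ge_atTop (max 1 ‖z0‖)))).exists_forall_of_atTop
  set R : ℝ := max r1 (max 1 ‖z0‖) with hR
  have hR1 : 1 ≤ R := le_max_of_le_right (le_max_left _ _)
  have hRz : ‖z0‖ ≤ R := le_max_of_le_right (le_max_right _ _)
  have hRr : r1 ≤ R := le_max_left _ _
  set τ0 : ℝ := Real.log R with hτ0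
  have hexp0 : Real.exp τ0 = R := Real.exp_log (by linarith)
  have hge : ∀ τ, τ0 ≤ τ → R ≤ Real.exp τ := by
    intro τ hτ
    rw [← hexp0]; exact Real.exp_le_exp.mpr hτ
  have hprop := fun τ (hτ : τ0 ≤ τ) => hr1 (Real.exp τ) (hRr.trans (hge τ hτ))
  set L : ℝ → ℝ := fun τ => Real.log (aF f (Real.exp τ)) with hL
  have hmono : MonotoneOn L (Set.Ici τ0) := by
    intro x hx y hy hxy
    have hx' : τ0 ≤ x := hx
    have h1 := (hprop x hx').1
    exact Real.log_le_log (by linarith) (hamono _ _ (hRz.trans (hge x hx')) (Real.exp_le_exp.mpr hxy))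
  have hL2 : ∀ M : ℝ, ∃ᶠ τ in Filter.atTop, M * τ ≤ L τ := by
    intro M
    have h1 := (freq hord M).and_eventually (eventually_gt_atTop (0:ℝ))
    refine Real.tendsto_log_atTop.frequently (p := fun τ => M * τ ≤ L τ) (h1.mono ?_)
    rintro r ⟨hr, hr0⟩
    simp only [hL]
    rw [Real.exp_log hr0]
    exact hr.le
  have hup : ∃ᶠ τ in atTop, L τ ≤ τ ^ (k + e1 / 2) := freq_up hg (by linarith) hatend
  -- large arguments
  obtain ⟨CC, hCC⟩ : ∃ CC : ℝ, CC = lam0 + p' := ⟨_, rfl⟩
  have hCC1 : 1 < CC := by linarith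
  obtain ⟨x1, hx1⟩ : ∃ x1 : ℝ, ∀ x, x1 ≤ x → c * (CC ^ 2 * x ^ 2) ≤ Real.exp x := by
    have h1 := (Real.tendsto_pow_mul_exp_neg_atTop_nhds_zero 2)
    have h2 : ∀ᶠ x : ℝ in atTop, x ^ 2 * Real.exp (-x) < 1 / (c * CC ^ 2) :=
      h1.eventually_lt_const (by positivity)
    obtain ⟨x1, hx1⟩ := h2.exists_forall_of_atTop
    refine ⟨x1, fun x hx => ?_⟩
    have h3 := hx1 x hx
    rw [lt_div_iff₀ (by positivity), Real.exp_neg] at h3
    have h4 := Real.exp_pos x
    have h5 : x ^ 2 * (Real.exp x)⁻¹ * (c * CC ^ 2) * Real.exp x = c * (CC ^ 2 * x ^ 2) := by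
      field_simp
    nlinarith
  obtain ⟨x2, hx2⟩ : ∃ x2 : ℝ, ∀ x, x2 ≤ x → 3 * Real.log CC < ε / 2 * Real.log x := by
    have h1 : Tendsto (fun x : ℝ => ε / 2 * Real.log x) atTop atTop :=
      Real.tendsto_log_atTop.const_mul_atTop (by linarith)
    obtain ⟨x2, hx2⟩ := (h1.eventually_gt_atTop (3 * Real.log CC)).exists_forall_of_atTop
    exact ⟨x2, hx2⟩
  set H0 : ℝ := 2 * Real.log D + 6 with hH0
  have hlD : 0 ≤ Real.log D := Real.log_nonneg hD
  obtain ⟨τ, hτ1, hLτ, lam, hlam, hlq, hgrow⟩ := grow L τ0 hmono hL2 (k + e1 / 2) p'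
    (by linarith) (by linarith) hup lam0 D (e1 / 20)
    (max (max (max x1 x2) 2) (max H0 (τ0 + H0))) hlam0 hD (by positivity)
  rw [← hCC] at hlq
  have a1 : x1 ≤ L τ := (((le_max_left _ _).trans (le_max_left _ _)).trans
    (le_max_left _ _)).trans hLτ
  have a1' : x2 ≤ L τ := (((le_max_right _ _).trans (le_max_left _ _)).trans
    (le_max_left _ _)).trans hLτ
  have a2 : 2 ≤ L τ := ((le_max_right _ _).trans (le_max_left _ _)).trans hLτ
  have a3 : H0 ≤ τ := ((le_max_left _ _).trans (le_max_right _ _)).trans hτ1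
  have a4 : τ0 + H0 ≤ τ := ((le_max_right _ _).trans (le_max_right _ _)).trans hτ1
  have hlam1 : 1 < lam := lt_of_lt_of_le hlam0 hlam
  have hHle : HH D lam ≤ H0 := HH_le hD hlam1
  have hHnn : 0 ≤ HH D lam := HH_nonneg hD hlam1
  have hτ0' : τ0 ≤ τ := by linarith
  have hA1 : 1 ≤ aF f (Real.exp τ) := (hprop τ hτ0').1
  have hA : aF f (Real.exp τ) = Real.exp (L τ) := by
    simp only [hL]; rw [Real.exp_log (by linarith)]
  have hLpow : L τ ^ (1 - 1 / p') ≤ L τ := by
    have h1 : L τ ^ (1 - 1 / p') ≤ L τ ^ (1 : ℝ) := by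
      refine Real.rpow_le_rpow_of_exponent_le (by linarith) ?_
      have : 0 < 1 / p' := by positivity
      linarith
    rwa [Real.rpow_one] at h1
  have hlamL : lam ≤ CC * L τ := hlq.trans (mul_le_mul_of_nonneg_left hLpow (by linarith))
  have hcA : c * lam ^ 2 ≤ aF f (Real.exp τ) := by
    rw [hA]
    refine le_trans ?_ (hx1 _ a1)
    have : lam ^ 2 ≤ (CC * L τ) ^ 2 := pow_le_pow_left₀ (by linarith) hlamL 2
    rw [mul_pow] at this
    exact mul_le_mul_of_nonneg_left this hc.le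
  have hT0 : 0 ≤ 2 * θ + ε := by linarith
  have hmain := hpeak lam hlam (Real.exp τ) (aF f (Real.exp τ))
    (Real.exp_le_exp.mpr (by linarith)) hcA ?_ ((2 * θ + ε) * Real.log (L τ)) ?_
  · -- contradiction
    have hlogL : 0 < Real.log (L τ) := Real.log_pos (by linarith)
    have hLp : 0 < L τ ^ (1 - 1 / p') := Real.rpow_pos_of_pos (by linarith) _
    have h1 : Real.log lam ≤ Real.log CC + (1 - 1 / p') * Real.log (L τ) := by
      have h2 := Real.log_le_log (by linarith) hlq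
      rwa [Real.log_mul (by linarith) hLp.ne', Real.log_rpow (by linarith)] at h2
    have h3 : (2 + e1) * Real.log lam ≤
        (2 + e1) * (Real.log CC + (1 - 1 / p') * Real.log (L τ)) :=
      mul_le_mul_of_nonneg_left h1 (by linarith)
    have h4 : (2 + e1) * (1 - 1 / p') * Real.log (L τ) ≤ (2 * θ + ε / 2) * Real.log (L τ) :=
      mul_le_mul_of_nonneg_right hkey hlogL.le
    have hCl : 0 ≤ Real.log CC := Real.log_nonneg hCC1.le
    have h5 : (2 + e1) * Real.log CC ≤ 3 * Real.log CC :=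
      mul_le_mul_of_nonneg_right (by linarith) hCl
    have h6 := hx2 _ a1'
    have e : (2 + e1) * (Real.log CC + (1 - 1 / p') * Real.log (L τ)) =
        (2 + e1) * Real.log CC + (2 + e1) * (1 - 1 / p') * Real.log (L τ) := by ring
    have e2 : (2 * θ + ε) * Real.log (L τ) =
        (2 * θ + ε / 2) * Real.log (L τ) + ε / 2 * Real.log (L τ) := by ring
    linarith
  · intro s hs z hz
    rw [← Real.exp_add] at hz
    have hs' := abs_le.mp hs
    have hτs : τ0 ≤ τ + s := by linarith [hs'.1]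
    have h1 := le_maxMod f hf z
    rw [hz] at h1
    have h2 : 0 < maxMod f (Real.exp (τ + s)) := hMpos _ (hRz.trans (hge _ hτs))
    have h3 : maxMod f (Real.exp (τ + s)) = Real.exp (aF f (Real.exp (τ + s))) := by
      unfold aF; rw [Real.exp_log h2]
    rw [h3] at h1
    refine h1.trans (Real.exp_le_exp.mpr ?_)
    have h4 : 1 ≤ aF f (Real.exp (τ + s)) := (hprop _ hτs).1
    have h5 : aF f (Real.exp (τ + s)) = Real.exp (L (τ + s)) := by
      simp only [hL]; rw [Real.exp_log (by linarith)]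
    rw [h5, hA, ← Real.exp_add]
    refine Real.exp_le_exp.mpr ?_
    have := hgrow s hs
    linarith
  · intro s hs0 hsH
    have hτs : τ0 ≤ τ + s := by linarith
    obtain ⟨z, hz1, hz2⟩ := (hprop _ hτs).2.1
    refine ⟨z, by rw [hz1, Real.exp_add], hz2.trans (Real.exp_le_exp.mpr ?_)⟩
    have h1 : aF f (Real.exp τ) ≤ aF f (Real.exp (τ + s)) :=
      hamono _ _ (hRz.trans (hge _ hτ0')) (Real.exp_le_exp.mpr (by linarith))
    have h2 : L τ ≤ Real.log (aF f (Real.exp (τ + s))) :=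
      Real.log_le_log (by linarith) h1
    have h3 : Real.log (L τ) ≤ Real.log (Real.log (aF f (Real.exp (τ + s)))) :=
      Real.log_le_log (by linarith) h2
    have h4 : 0 ≤ Real.log (L τ) := Real.log_nonneg (by linarith)
    have h5 : aF f (Real.exp τ) * Real.log (L τ) ≤
        aF f (Real.exp (τ + s)) * Real.log (Real.log (aF f (Real.exp (τ + s)))) :=
      mul_le_mul h1 h3 h4 (by linarith)
    have h6 : (2 * θ + ε) * (aF f (Real.exp τ) * Real.log (L τ)) ≤
        (2 * θ + ε) * (aF f (Real.exp (τ + s)) *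
          Real.log (Real.log (aF f (Real.exp (τ + s))))) :=
      mul_le_mul_of_nonneg_left h5 (by linarith)
    have e : (2 * θ + ε) * Real.log (L τ) * aF f (Real.exp τ) =
        (2 * θ + ε) * (aF f (Real.exp τ) * Real.log (L τ)) := by ring
    rw [e]
    linarith

end Pool.Agent.H85.GE
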