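import Pool.Agent.H85.GE.Lower
import Pool.Graph.R_seed8.MP06ac62.G

/-!
# The constant for functions with a given growth exponent
-/

set_option autoImplicit false

namespace Pool.Agent.H85.GE

open Filter Topology
open Pool.Agent.W646.CI
open Pool.Agent.W63.CI (minMod_le min_att bF_le lt_of_bF den_pos)

theorem lamInf_le {f : ℂ → ℂ} {T : ℝ} (hev : ∀ᶠ r : ℝ in atTop, Real.exp 1 < MinMod.aF f r ∧
    ∃ z : ℂ, ‖z‖ = r ∧ ‖f z‖ ≤ Real.exp (-(T *
      (MinMod.aF f r * Real.log (Real.log (MinMod.aF f r)))))) :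
    LamInf f ≤ ((-T : ℝ) : EReal) := by
  unfold LamInf
  refine limsup_le_of_le (by isBoundedDefault) ?_
  filter_upwards [hev] with r hr
  obtain ⟨ha, z, hz, hfz⟩ := hr
  have hp := den_pos ha
  rw [EReal.div_le_iff_le_mul (by exact_mod_cast hp) (EReal.coe_ne_top _)]
  have h2 := bF_le ((minMod_le f hz).trans hfz)
  refine h2.trans (le_of_eq ?_)
  rw [← EReal.coe_mul]
  congr 1
  ring

theorem lamInf_ge {f : ℂ → ℂ} (hf : Differentiable ℂ f) (hord : order f = ⊤) {k : ℝ}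
    (hk : 1 ≤ k) (hg : gexp f ≤ (k : EReal)) :
    ((-(2 * (1 - 1 / k)) : ℝ) : EReal) ≤ LamInf f := by
  by_contra hcon
  obtain ⟨t, ht1, ht2⟩ := EReal.lt_iff_exists_real_btwn.1 (not_le.1 hcon)
  rw [EReal.coe_lt_coe_iff] at ht2
  obtain ⟨hT, hN⟩ := lowk Pk.peak f hf hord k hk hg (-(2 * (1 - 1 / k)) - t) (by linarith)
  apply hN
  have h1 : ∀ᶠ r : ℝ in atTop, MinMod.bF f r /
      ((MinMod.aF f r * Real.log (Real.log (MinMod.aF f r)) : ℝ) : EReal) <
      ((t : ℝ) : EReal) := eventually_lt_of_limsup_lt ht1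
  filter_upwards [h1, hT.eventually_gt_atTop (Real.exp 1), eventually_ge_atTop (0:ℝ)]
    with r hr ha hr0
  have hp := den_pos ha
  rw [EReal.div_lt_iff (by exact_mod_cast hp) (EReal.coe_ne_top _), ← EReal.coe_mul] at hr
  have h2 := lt_of_bF hr
  obtain ⟨z, hz, hfz⟩ := min_att f hf.continuous hr0
  refine ⟨z, hz, hfz.trans (h2.le.trans (le_of_eq ?_))⟩
  congr 1
  ring

/-- Functions with the extremal value have infinite growth exponent. -/
theorem gexp_top {f : ℂ → ℂ} (hf : Differentiable ℂ f) (hord : order f = ⊤)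
    (h : LamInf f ≤ (-2 : EReal)) : gexp f = ⊤ := by
  by_contra hcon
  obtain ⟨x, hx, -⟩ := EReal.lt_iff_exists_real_btwn.1 (lt_top_iff_ne_top.2 hcon)
  have h1 : gexp f ≤ ((max 1 x : ℝ) : EReal) := by
    refine hx.le.trans ?_
    rw [EReal.coe_le_coe_iff]
    exact le_max_right _ _
  have h2 := (lamInf_ge hf hord (le_max_left 1 x) h1).trans h
  have h3 : (-2 : EReal) = ((-2 : ℝ) : EReal) := by
    rw [EReal.coe_neg]
    rfl
  rw [h3, EReal.coe_le_coe_iff] at h2
  have h4 : (0 : ℝ) < 1 / max 1 x := by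
    have : (1 : ℝ) ≤ max 1 x := le_max_left _ _
    positivity
  linarith

end Pool.Agent.H85.GE
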