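import Pool.Agent.H85.GE.Main

/-!
# Functions with growth exponent at most one
-/

set_option autoImplicit false

namespace Pool.Agent.H85.GE

open Filter Topology
open Pool.Agent.W646.CI
open Pool.Agent.W63.CI (minMod_le min_att bF_le lt_of_bF den_pos)

theorem aF_tendsto {f : ℂ → ℂ} (hf : Differentiable ℂ f) (hord : order f = ⊤) :
    Tendsto (fun r => MinMod.aF f r) atTop atTop :=
  (Pool.Agent.W191.CI.lowf Pk.peak Pool.Agent.W214.CI.grow f hf hord 1 one_pos).1

theorem lamInf_nonpos {f : ℂ → ℂ} (hf : Differentiable ℂ f) (hord : order f = ⊤) :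
    LamInf f ≤ 0 := by
  refine le_of_forall_gt ?_
  intro c hc
  obtain ⟨t, ht1, ht2⟩ := EReal.lt_iff_exists_real_btwn.1 hc
  have ht0 : 0 < t := by exact_mod_cast ht1
  refine lt_of_le_of_lt ?_ ht2
  unfold LamInf
  refine limsup_le_of_le (by isBoundedDefault) ?_
  have ha := aF_tendsto hf hord
  have hlog := Real.tendsto_log_atTop.comp (Real.tendsto_log_atTop.comp ha)
  filter_upwards [ha.eventually_gt_atTop (Real.exp 1), hlog.eventually_ge_atTop (1 / t),
    eventually_ge_atTop (0 : ℝ)] with r h1 h2 h3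
  simp only [Function.comp_apply] at h2
  have hp := den_pos h1
  have ha0 : 0 < MinMod.aF f r := (Real.exp_pos 1).trans h1
  rw [EReal.div_le_iff_le_mul (by exact_mod_cast hp) (EReal.coe_ne_top _), ← EReal.coe_mul]
  refine bF_le ?_
  have hz : ‖(r : ℂ)‖ = r := by
    rw [Complex.norm_real, Real.norm_of_nonneg h3]
  refine (minMod_le f hz).trans ?_
  have h4 := MinMod.L4a.le_maxMod f hf (r : ℂ)
  rw [hz] at h4
  have h5 : 0 < MinMod.maxMod f r := by
    by_contra hcon
    have h6 : 0 ≤ MinMod.maxMod f r := (norm_nonneg _).trans h4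
    have h7 : MinMod.maxMod f r = 0 := le_antisymm (not_lt.1 hcon) h6
    have h8 : MinMod.aF f r = 0 := by
      unfold MinMod.aF
      rw [h7, Real.log_zero]
    linarith
  have h6 : MinMod.maxMod f r = Real.exp (MinMod.aF f r) := by
    unfold MinMod.aF
    rw [Real.exp_log h5]
  rw [h6] at h4
  refine h4.trans (Real.exp_le_exp.2 ?_)
  rw [div_le_iff₀ ht0] at h2
  nlinarith

theorem lamInf_zero {f : ℂ → ℂ} (hf : Differentiable ℂ f) (hord : order f = ⊤)
    (hg : gexp f ≤ ((1 : ℝ) : EReal)) : LamInf f = 0 := by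
  refine le_antisymm (lamInf_nonpos hf hord) ?_
  have h := lamInf_ge hf hord le_rfl hg
  have e : -(2 * (1 - 1 / (1 : ℝ))) = 0 := by norm_num
  rw [e] at h
  exact h

theorem gexp_le_one {f : ℂ → ℂ} (hf : Differentiable ℂ f) (hord : order f = ⊤)
    (h : MinMod.lowerOrder f < ⊤) : gexp f ≤ ((1 : ℝ) : EReal) := by
  refine le_of_forall_gt ?_
  intro c hc
  obtain ⟨t, ht1, ht2⟩ := EReal.lt_iff_exists_real_btwn.1 hc
  rw [EReal.coe_lt_coe_iff] at ht1
  refine lt_of_le_of_lt ?_ ht2
  obtain ⟨M, hM, -⟩ := EReal.lt_iff_exists_real_btwn.1 h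
  have h1 := Filter.frequently_lt_of_liminf_lt (by isBoundedDefault) hM
  have hll : Tendsto (fun r : ℝ => (t - 1) * Real.log (Real.log r)) atTop atTop :=
    (Real.tendsto_log_atTop.comp Real.tendsto_log_atTop).const_mul_atTop (by linarith)
  refine Filter.liminf_le_of_frequently_le ((h1.and_eventually
    ((eventually_gt_atTop (Real.exp 1)).and (((aF_tendsto hf hord).eventually_gt_atTop 1).and
      (hll.eventually_ge_atTop (Real.log (max 1 M)))))).mono ?_)
  rintro r ⟨hr, hr1, hr2, hr3⟩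
  have hr0 : 0 < r := (Real.exp_pos 1).trans hr1
  have h4 : 1 < Real.log r := (Real.lt_log_iff_exp_lt hr0).2 hr1
  have h5 : 0 < Real.log (Real.log r) := Real.log_pos h4
  have h6 : Real.log (MinMod.aF f r) / Real.log r < M := by exact_mod_cast hr
  rw [div_lt_iff₀ (by linarith)] at h6
  have h7 : 0 < Real.log (MinMod.aF f r) := Real.log_pos hr2
  have h8 : Real.log (MinMod.aF f r) ≤ max 1 M * Real.log r := by
    have h9 := mul_le_mul_of_nonneg_right (le_max_right 1 M) (by linarith : 0 ≤ Real.log r)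
    linarith
  have h10 : (0 : ℝ) < max 1 M := lt_of_lt_of_le one_pos (le_max_left _ _)
  have h11 := Real.log_le_log h7 h8
  rw [Real.log_mul h10.ne' (by linarith)] at h11
  rw [EReal.coe_le_coe_iff, div_le_iff₀ h5]
  linarith

end Pool.Agent.H85.GE
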